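import Pool.Agent.K3h15.DM.Stm

/-!
# Brick ADJ (project DM of helper15): adjoints of operators of the Weyl algebra
-/

set_option autoImplicit false

namespace Pool.Agent.K3h15.DM

open MvPolynomial Finset

namespace AdjP

variable {n : ℕ}

/-- the linear maps that divide by at most `Y ^ m` -/
def D (Y : MvPolynomial (Fin n) ℂ) (m : ℕ) :
    Submodule ℂ (Module.End ℂ (MvPolynomial (Fin n) ℂ)) where
  carrier := {B | ∀ v i, Y ^ (m + i) ∣ v → Y ^ i ∣ B v}
  add_mem' := by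
    intro a b ha hb v i h
    exact dvd_add (ha v i h) (hb v i h)
  zero_mem' := by
    intro v i _
    simp
  smul_mem' := by
    intro c a ha v i h
    rw [LinearMap.smul_apply, MvPolynomial.smul_eq_C_mul]
    exact Dvd.dvd.mul_left (ha v i h) _

/-- polynomial functions of `s` with coefficients in `M` -/
def Pf (M : Submodule ℂ (Module.End ℂ (MvPolynomial (Fin n) ℂ)))
    (E : ℕ → Module.End ℂ (MvPolynomial (Fin n) ℂ)) : Prop :=
  ∃ (K : ℕ) (B : ℕ → Module.End ℂ (MvPolynomial (Fin n) ℂ)), (∀ k, B k ∈ M) ∧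
    ∀ s : ℕ, E s = ∑ k ∈ range K, ((s : ℂ) ^ k) • B k

variable {M : Submodule ℂ (Module.End ℂ (MvPolynomial (Fin n) ℂ))}

lemma Pf.add {E E' : ℕ → Module.End ℂ (MvPolynomial (Fin n) ℂ)} (h : Pf M E) (h' : Pf M E') :
    Pf M (fun s => E s + E' s) := by
  obtain ⟨K, B, hB, hE⟩ := h
  obtain ⟨K', B', hB', hE'⟩ := h'
  refine ⟨K + K', fun k => (if k < K then B k else 0) + (if k < K' then B' k else 0), ?_, ?_⟩
  · intro k
    refine M.add_mem ?_ ?_
    · split_ifs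
      · exact hB k
      · exact M.zero_mem
    · split_ifs
      · exact hB' k
      · exact M.zero_mem
  · intro s
    simp only [hE, hE', smul_add, smul_ite, smul_zero]
    rw [Finset.sum_add_distrib, ← Finset.sum_filter, ← Finset.sum_filter]
    congr 1
    · refine Finset.sum_congr ?_ fun _ _ => rfl
      ext k
      simp only [mem_range, mem_filter]
      omega
    · refine Finset.sum_congr ?_ fun _ _ => rfl
      ext k
      simp only [mem_range, mem_filter]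
      omega

lemma Pf.const {B : Module.End ℂ (MvPolynomial (Fin n) ℂ)} (h : B ∈ M) : Pf M (fun _ => B) :=
  ⟨1, fun _ => B, fun _ => h, fun s => by simp⟩

lemma Pf.smul {E : ℕ → Module.End ℂ (MvPolynomial (Fin n) ℂ)} (h : Pf M E) (c : ℂ) :
    Pf M (fun s => c • E s) := by
  obtain ⟨K, B, hB, hE⟩ := h
  refine ⟨K, fun k => c • B k, fun k => M.smul_mem c (hB k), fun s => ?_⟩
  simp only [hE, Finset.smul_sum]
  exact Finset.sum_congr rfl fun k _ => smul_comm _ _ _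

lemma Pf.shift {E : ℕ → Module.End ℂ (MvPolynomial (Fin n) ℂ)} (h : Pf M E) :
    Pf M (fun s => (s : ℂ) • E s) := by
  obtain ⟨K, B, hB, hE⟩ := h
  refine ⟨K + 1, fun k => if k = 0 then 0 else B (k - 1), ?_, fun s => ?_⟩
  · intro k
    dsimp only
    split_ifs
    · exact M.zero_mem
    · exact hB _
  · rw [Finset.sum_range_succ']
    simp only [hE, Finset.smul_sum]
    simp only [pow_zero, if_true, smul_zero, add_zero, Nat.add_sub_cancel, Nat.succ_ne_zero,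
      if_false]
    refine Finset.sum_congr rfl fun k _ => ?_
    rw [smul_smul, pow_succ, mul_comm]

lemma Pf.pow {E : ℕ → Module.End ℂ (MvPolynomial (Fin n) ℂ)} (h : Pf M E) (c : ℂ) (k : ℕ) :
    Pf M (fun s => (((s : ℂ) + c) ^ k) • E s) := by
  induction k with
  | zero => simpa using h
  | succ k ih =>
    have := (ih.shift).add (ih.smul c)
    refine cast ?_ this
    congr 1
    funext s
    rw [smul_smul, smul_smul, ← add_smul, pow_succ]
    congr 1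
    ring

lemma Pf.sum {ι : Type} (S : Finset ι)
    {E : ι → ℕ → Module.End ℂ (MvPolynomial (Fin n) ℂ)} (h : ∀ i ∈ S, Pf M (E i)) :
    Pf M (fun s => ∑ i ∈ S, E i s) := by
  classical
  induction S using Finset.induction_on with
  | empty => exact ⟨0, fun _ => 0, fun _ => M.zero_mem, fun s => by simp⟩
  | insert a S ha ih =>
    have := (h a (Finset.mem_insert_self _ _)).add
      (ih fun i hi => h i (Finset.mem_insert_of_mem hi))
    refine cast ?_ this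
    congr 1
    funext s
    rw [Finset.sum_insert ha]

lemma Pf.comp {Y : MvPolynomial (Fin n) ℂ} {m1 m2 : ℕ}
    {E1 E2 : ℕ → Module.End ℂ (MvPolynomial (Fin n) ℂ)} (h1 : Pf (D Y m1) E1)
    (h2 : Pf (D Y m2) E2) (c : ℕ) : Pf (D Y (m1 + m2)) (fun s => E2 (s + c) * E1 s) := by
  obtain ⟨K1, B1, hB1, hE1⟩ := h1
  obtain ⟨K2, B2, hB2, hE2⟩ := h2
  have key : Pf (D Y (m1 + m2)) (fun s => ∑ k' ∈ range K2, ((((s : ℂ) + c) ^ k') •
      ∑ k ∈ range K1, (s : ℂ) ^ k • (B2 k' * B1 k))) := by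
    refine Pf.sum (range K2)
      (E := fun k' s => (((s : ℂ) + c) ^ k') • ∑ k ∈ range K1, (s : ℂ) ^ k • (B2 k' * B1 k)) ?_
    intro k' _
    refine Pf.pow (E := fun s => ∑ k ∈ range K1, (s : ℂ) ^ k • (B2 k' * B1 k)) ?_ _ _
    refine ⟨K1, fun k => B2 k' * B1 k, fun k v i hv => ?_, fun s => rfl⟩
    rw [Module.End.mul_apply]
    refine hB2 k' _ _ (hB1 k _ _ ?_)
    rw [← add_assoc]
    exact hv
  refine cast ?_ key
  congr 1
  funext s
  rw [hE2, hE1, Finset.sum_mul]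
  refine Finset.sum_congr rfl fun k' _ => ?_
  rw [smul_mul_assoc, Finset.mul_sum]
  push_cast
  congr 1
  refine Finset.sum_congr rfl fun k _ => ?_
  rw [mul_smul_comm]

/-- the statement for one operator -/
def Good (F Y u : MvPolynomial (Fin n) ℂ) (Q : Module.End ℂ (MvPolynomial (Fin n) ℂ)) : Prop :=
  ∃ m0 : ℕ, ∀ m, m0 ≤ m → ∀ w : Fin n → MvPolynomial (Fin n) ℂ,
  ∃ E : ℕ → Module.End ℂ (MvPolynomial (Fin n) ℂ), Pf (D Y m) E ∧
    ∀ (s : ℕ) (H : MvPolynomial (Fin n) ℂ), ∃ W : MvPolynomial (Fin n) ℂ,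
      Q (u ^ (s + m) * H) = u ^ s * W ∧
      (∀ i, F ^ (m + i) ∣ H → F ^ i ∣ W) ∧ (∀ i, Y ^ (m + i) ∣ H → Y ^ i ∣ W) ∧
      ∀ (v : MvPolynomial (Fin n) ℂ) (Λ : MvPolynomial (Fin n) ℂ →ₗ[ℂ] ℂ), IsIBP F Y w Λ →
        F ^ m ∣ H → (Y ^ m ∣ H ∨ Y ^ m ∣ v) → Λ (v * W) = Λ ((E s v) * H)

lemma dvd_of_pow_add {G H : MvPolynomial (Fin n) ℂ} {m i : ℕ} (h : G ^ (m + i) ∣ H) :
    G ^ i ∣ H := dvd_trans (pow_dvd_pow G (by omega)) h

lemma dvd_pderiv {G H : MvPolynomial (Fin n) ℂ} {k : ℕ} (j : Fin n) (h : G ^ (k + 1) ∣ H) :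
    G ^ k ∣ pderiv j H := by
  obtain ⟨a, rfl⟩ := h
  rw [Derivation.leibniz, Derivation.leibniz_pow]
  refine dvd_add ?_ ?_
  · rw [smul_eq_mul]
    exact Dvd.dvd.mul_right (pow_dvd_pow G (by omega)) _
  · rw [smul_eq_mul]
    refine Dvd.dvd.mul_left ?_ _
    simp only [Nat.add_sub_cancel, smul_eq_mul, nsmul_eq_mul]
    exact Dvd.dvd.mul_left (Dvd.dvd.mul_right (dvd_refl _) _) _

lemma good_mul (F Y u a : MvPolynomial (Fin n) ℂ) : Good F Y u (LinearMap.mulLeft ℂ a) := by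
  refine ⟨0, fun m _ w => ⟨fun _ => LinearMap.mulLeft ℂ (u ^ m * a), ?_, ?_⟩⟩
  · refine Pf.const fun v i hv => ?_
    rw [LinearMap.mulLeft_apply]
    exact Dvd.dvd.mul_left (dvd_of_pow_add hv) _
  · intro s H
    refine ⟨u ^ m * a * H, ?_, fun i h => Dvd.dvd.mul_left (dvd_of_pow_add h) _,
      fun i h => Dvd.dvd.mul_left (dvd_of_pow_add h) _, ?_⟩
    · rw [LinearMap.mulLeft_apply, pow_add]
      ring
    · intro v Λ _ _ _
      rw [LinearMap.mulLeft_apply]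
      congr 1
      ring

lemma fy_dvd {F Y H : MvPolynomial (Fin n) ℂ} (h1 : F ^ 2 ∣ H) (h2 : Y ^ 2 ∣ H) : F * Y ∣ H := by
  have h : (F * Y) ^ 2 ∣ H ^ 2 := by
    rw [mul_pow, sq H]
    exact mul_dvd_mul h1 h2
  exact (UniqueFactorizationMonoid.pow_dvd_pow_iff_dvd two_ne_zero).mp h

lemma good_pderiv (F Y u : MvPolynomial (Fin n) ℂ) (j : Fin n) :
    Good F Y u ((pderiv j : Derivation ℂ (MvPolynomial (Fin n) ℂ)
        (MvPolynomial (Fin n) ℂ)) : MvPolynomial (Fin n) ℂ →ₗ[ℂ] MvPolynomial (Fin n) ℂ) := by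
  refine ⟨2, fun m hm w => ?_⟩
  obtain ⟨m, rfl⟩ : ∃ m', m = m' + 1 := ⟨m - 1, by omega⟩
  have hm1 : 1 ≤ m := by omega
  let B0 : Module.End ℂ (MvPolynomial (Fin n) ℂ) := LinearMap.mulLeft ℂ (w j * u ^ (m + 1)) -
    (LinearMap.mulLeft ℂ (u ^ (m + 1))) * ((pderiv j : Derivation ℂ (MvPolynomial (Fin n) ℂ)
        (MvPolynomial (Fin n) ℂ)) : MvPolynomial (Fin n) ℂ →ₗ[ℂ] MvPolynomial (Fin n) ℂ)
  let B1 : Module.End ℂ (MvPolynomial (Fin n) ℂ) := LinearMap.mulLeft ℂ (u ^ m * pderiv j u)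
  have hB0 : B0 ∈ D Y (m + 1) := by
    intro v i hv
    have e : B0 v = w j * u ^ (m + 1) * v - u ^ (m + 1) * pderiv j v := rfl
    rw [e]
    refine dvd_sub (Dvd.dvd.mul_left (dvd_of_pow_add hv) _) (Dvd.dvd.mul_left ?_ _)
    refine dvd_of_pow_add (m := m) (dvd_pderiv j ?_)
    exact dvd_trans (pow_dvd_pow Y (by omega)) hv
  have hB1 : B1 ∈ D Y (m + 1) := by
    intro v i hv
    exact Dvd.dvd.mul_left (dvd_of_pow_add hv) _
  refine ⟨fun s => B0 + (s : ℂ) • B1, (Pf.const hB0).add (Pf.const hB1).shift, ?_⟩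
  intro s H
  refine ⟨u ^ (m + 1) * pderiv j H + (((s : ℂ) + (m + 1 : ℕ)) • (u ^ m * pderiv j u * H)),
    ?_, ?_, ?_, ?_⟩
  · have e : ((pderiv j : Derivation ℂ (MvPolynomial (Fin n) ℂ)
        (MvPolynomial (Fin n) ℂ)) : MvPolynomial (Fin n) ℂ →ₗ[ℂ] MvPolynomial (Fin n) ℂ)
        (u ^ (s + (m + 1)) * H) = pderiv j (u ^ (s + (m + 1)) * H) := rfl
    rw [e, Derivation.leibniz, Derivation.leibniz_pow]
    have e2 : s + (m + 1) - 1 = s + m := by omega
    rw [e2]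
    simp only [smul_eq_mul, nsmul_eq_mul]
    rw [MvPolynomial.smul_eq_C_mul, map_add, map_natCast, map_natCast]
    push_cast
    ring
  · intro i h
    refine dvd_add (Dvd.dvd.mul_left ?_ _) ?_
    · refine dvd_of_pow_add (m := m) (dvd_pderiv j ?_)
      exact dvd_trans (pow_dvd_pow F (by omega)) h
    · rw [MvPolynomial.smul_eq_C_mul]
      exact Dvd.dvd.mul_left (Dvd.dvd.mul_left (dvd_of_pow_add h) _) _
  · intro i h
    refine dvd_add (Dvd.dvd.mul_left ?_ _) ?_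
    · refine dvd_of_pow_add (m := m) (dvd_pderiv j ?_)
      exact dvd_trans (pow_dvd_pow Y (by omega)) h
    · rw [MvPolynomial.smul_eq_C_mul]
      exact Dvd.dvd.mul_left (Dvd.dvd.mul_left (dvd_of_pow_add h) _) _
  · intro v Λ hΛ hF hY
    have hdvd : F * Y ∣ v * u ^ (m + 1) * H := by
      rcases hY with hY | hY
      · refine Dvd.dvd.mul_left (fy_dvd ?_ ?_) _
        · exact dvd_trans (pow_dvd_pow F (by omega)) hF
        · exact dvd_trans (pow_dvd_pow Y (by omega)) hY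
      · have h1 : F ∣ H := dvd_trans (dvd_pow_self F (by omega)) hF
        have h2 : Y ∣ v := dvd_trans (dvd_pow_self Y (by omega)) hY
        obtain ⟨a, rfl⟩ := h1
        obtain ⟨b, rfl⟩ := h2
        exact ⟨b * u ^ (m + 1) * a, by ring⟩
    have h := hΛ j _ hdvd
    have e1 : pderiv j (v * u ^ (m + 1) * H) = v * u ^ (m + 1) * pderiv j H +
        (pderiv j v * u ^ (m + 1) + v * (((m + 1 : ℕ) : MvPolynomial (Fin n) ℂ) *
          (u ^ m * pderiv j u))) * H := by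
      rw [Derivation.leibniz, Derivation.leibniz, Derivation.leibniz_pow]
      simp only [smul_eq_mul, nsmul_eq_mul, Nat.add_sub_cancel]
      ring
    rw [e1] at h
    have e2 : v * (u ^ (m + 1) * pderiv j H +
        (((s : ℂ) + (m + 1 : ℕ)) • (u ^ m * pderiv j u * H))) =
        (v * u ^ (m + 1) * pderiv j H +
        (pderiv j v * u ^ (m + 1) + v * (((m + 1 : ℕ) : MvPolynomial (Fin n) ℂ) *
          (u ^ m * pderiv j u))) * H) +
        (- (u ^ (m + 1) * pderiv j v) * H + (C (s : ℂ) * (u ^ m * pderiv j u * v)) * H) := by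
      rw [MvPolynomial.smul_eq_C_mul, map_add, map_natCast, map_natCast]
      push_cast
      ring
    have e3 : ((B0 + (s : ℂ) • B1) v) * H = w j * (v * u ^ (m + 1) * H) +
        (- (u ^ (m + 1) * pderiv j v) * H + (C (s : ℂ) * (u ^ m * pderiv j u * v)) * H) := by
      have e : (B0 + (s : ℂ) • B1) v = (w j * u ^ (m + 1) * v - u ^ (m + 1) * pderiv j v) +
        (s : ℂ) • (u ^ m * pderiv j u * v) := rfl
      rw [e, MvPolynomial.smul_eq_C_mul]
      ring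
    rw [e2, map_add, h, e3, ← map_add]

lemma good_add {F Y u : MvPolynomial (Fin n) ℂ} {Q1 Q2 : Module.End ℂ (MvPolynomial (Fin n) ℂ)}
    (h1 : Good F Y u Q1) (h2 : Good F Y u Q2) : Good F Y u (Q1 + Q2) := by
  obtain ⟨m1, h1⟩ := h1
  obtain ⟨m2, h2⟩ := h2
  refine ⟨max m1 m2, fun m hm w => ?_⟩
  obtain ⟨E1, hE1, h1⟩ := h1 m (le_trans (le_max_left _ _) hm) w
  obtain ⟨E2, hE2, h2⟩ := h2 m (le_trans (le_max_right _ _) hm) w
  refine ⟨fun s => E1 s + E2 s, hE1.add hE2, fun s H => ?_⟩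
  obtain ⟨W1, a1, b1, c1, d1⟩ := h1 s H
  obtain ⟨W2, a2, b2, c2, d2⟩ := h2 s H
  refine ⟨W1 + W2, ?_, fun i h => dvd_add (b1 i h) (b2 i h), fun i h => dvd_add (c1 i h) (c2 i h),
    fun v Λ hΛ hF hY => ?_⟩
  · rw [LinearMap.add_apply, a1, a2]
    ring
  · rw [mul_add, map_add, d1 v Λ hΛ hF hY, d2 v Λ hΛ hF hY, ← map_add, ← add_mul]
    rfl

lemma good_comp {F Y u : MvPolynomial (Fin n) ℂ} {Q1 Q2 : Module.End ℂ (MvPolynomial (Fin n) ℂ)}
    (h1 : Good F Y u Q1) (h2 : Good F Y u Q2) : Good F Y u (Q1 * Q2) := by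
  obtain ⟨m01, h1⟩ := h1
  obtain ⟨m2, h2⟩ := h2
  refine ⟨m01 + m2, fun m hm w => ?_⟩
  obtain ⟨m1, rfl⟩ : ∃ m1, m = m1 + m2 := ⟨m - m2, by omega⟩
  obtain ⟨E1, hE1, h1⟩ := h1 m1 (by omega) w
  obtain ⟨E2, hE2, h2⟩ := h2 m2 le_rfl w
  refine ⟨fun s => E2 (s + m1) * E1 s, hE1.comp hE2 m1, fun s H => ?_⟩
  obtain ⟨W2, a2, b2, c2, d2⟩ := h2 (s + m1) H
  obtain ⟨W1, a1, b1, c1, d1⟩ := h1 s W2
  refine ⟨W1, ?_, fun i h => b1 i (b2 (m1 + i) ?_), fun i h => c1 i (c2 (m1 + i) ?_),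
    fun v Λ hΛ hF hY => ?_⟩
  · rw [Module.End.mul_apply, ← add_assoc, a2, a1]
  · have e : m2 + (m1 + i) = m1 + m2 + i := by omega
    rw [e]; exact h
  · have e : m2 + (m1 + i) = m1 + m2 + i := by omega
    rw [e]; exact h
  · have hF1 : F ^ m1 ∣ W2 := b2 m1 (by rw [add_comm]; exact hF)
    have hF2 : F ^ m2 ∣ H := dvd_of_pow_add hF
    have hY1 : Y ^ m1 ∣ W2 ∨ Y ^ m1 ∣ v := by
      rcases hY with hY | hY
      · exact Or.inl (c2 m1 (by rw [add_comm]; exact hY))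
      · exact Or.inr (dvd_trans (pow_dvd_pow Y (by omega)) hY)
    have hY2 : Y ^ m2 ∣ H ∨ Y ^ m2 ∣ E1 s v := by
      rcases hY with hY | hY
      · exact Or.inl (dvd_of_pow_add hY)
      · right
        obtain ⟨K, B, hB, hE⟩ := hE1
        have hmem : E1 s ∈ D Y m1 := by
          rw [hE s]
          exact Submodule.sum_mem _ fun k _ => Submodule.smul_mem _ _ (hB k)
        exact hmem v m2 hY
    rw [d1 v Λ hΛ hF1 hY1, d2 (E1 s v) Λ hΛ hF2 hY2]
    rfl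

lemma good_of_mem (F Y u : MvPolynomial (Fin n) ℂ) (Q : Module.End ℂ (MvPolynomial (Fin n) ℂ))
    (hQ : Q ∈ Pool.Agent.H628R4.TP.weylS (Fin n)) : Good F Y u Q := by
  refine Algebra.adjoin_induction (p := fun Q _ => Good F Y u Q) ?_ ?_ ?_ ?_ hQ
  · rintro Q (⟨i, rfl⟩ | ⟨i, rfl⟩)
    · exact good_mul F Y u (X i)
    · exact good_pderiv F Y u i
  · intro r
    have e : (algebraMap ℂ (Module.End ℂ (MvPolynomial (Fin n) ℂ)) r) =
        LinearMap.mulLeft ℂ (C r : MvPolynomial (Fin n) ℂ) := by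
      refine LinearMap.ext fun p => ?_
      rw [Module.algebraMap_end_apply, LinearMap.mulLeft_apply, MvPolynomial.smul_eq_C_mul]
    rw [e]
    exact good_mul F Y u (C r)
  · intro x y _ _ hx hy
    exact good_add hx hy
  · intro x y _ _ hx hy
    exact good_comp hx hy

end AdjP

open AdjP in
/-- brick ADJ -/
theorem t_Adj : StmAdj := by
  intro n F Y u Q hQ
  obtain ⟨m0, h⟩ := good_of_mem F Y u Q hQ
  refine ⟨m0, fun m hm w => ?_⟩
  obtain ⟨E, ⟨K, B, hB, hE⟩, h⟩ := h m hm w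
  refine ⟨K, B, fun k v i hv => hB k v i hv, fun s H => ?_⟩
  obtain ⟨W, a, b, c, d⟩ := h s H
  refine ⟨W, a, b, c, fun v Λ hΛ hF hY => ?_⟩
  rw [d v Λ hΛ hF hY, hE s]
  simp only [LinearMap.sum_apply, LinearMap.smul_apply]

end Pool.Agent.K3h15.DM
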